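import Pool.Agent.V11324.NS.Dom

/-!
# The crossings of all slabs by the boundary path of the O(n) model with n = 0 are even

The boundary path of the O(n) model for `n = 0`, `x = x_c(0)` in discretisations with mesh `δ` of an
arbitrary connected open set `Ω` (inside a fixed disc), between two points which are flat boundary
points or interior points of `Ω`. With probability at least `1 - exp (-s log(1/δ)^2)` the following
holds simultaneously for the three edge directions `e` and for all slabs orthogonal to `e`, of all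
heights `H ≥ 1` (in lattice units) and at all places, up to the boundary of the domain: every piece of
the path which crosses the slab (upwards or downwards) and stays in it has a width (extent orthogonal
to `e`) which is larger than `H / (C s log(1/δ)^2)` and at most `C s log(1/δ)^2 H`.
-/

set_option autoImplicit false

namespace Pool.Agent.Results.MP_4960b8_pr.EvenCrossings

open scoped ENNReal

/-- Adjacency in the honeycomb lattice (brick-wall coordinates). -/
def Nbr (p q : ℤ × ℤ) : Prop :=
  (p.2 = q.2 ∧ (p.1 - q.1 = 1 ∨ q.1 - p.1 = 1)) ∨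
    (p.1 = q.1 ∧ ((q.2 = p.2 + 1 ∧ Even (p.1 + p.2)) ∨ (p.2 = q.2 + 1 ∧ Even (q.1 + q.2))))

/-- The self-avoiding trajectories from `a` to `b` in `D`, as lists of vertices (the configurations
of the model for `n = 0`). -/
def Traj (D : Set (ℤ × ℤ)) (a b : ℤ × ℤ) : Set (List (ℤ × ℤ)) :=
  {l | l.head? = some a ∧ l.getLast? = some b ∧ l.Nodup ∧ l.IsChain Nbr ∧ ∀ p ∈ l, p ∈ D}

/-- The critical fugacity `x_c(0)`. -/
noncomputable def xc : ℝ≥0∞ := ENNReal.ofReal (1 / Real.sqrt (2 + Real.sqrt 2))

/-- The critical partition function: the sum of `xc ^ (number of steps)` over the trajectories. -/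
noncomputable def Z (D : Set (ℤ × ℤ)) (a b : ℤ × ℤ) : ℝ≥0∞ :=
  ∑' l : Traj D a b, xc ^ (l.1.length - 1)

/-- The probability of `E` under the critical measure on the trajectories from `a` to `b` in `D`. -/
noncomputable def Prob (D : Set (ℤ × ℤ)) (a b : ℤ × ℤ) (E : List (ℤ × ℤ) → Prop) : ℝ≥0∞ :=
  (∑' l : {l // l ∈ Traj D a b ∧ E l}, xc ^ (l.1.length - 1)) / Z D a b

/-- The position of the vertices in the plane: the honeycomb lattice with unit edge length (`Nbr p q`
if and only if the points `emb p` and `emb q` have distance `1`). -/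
noncomputable def emb (v : ℤ × ℤ) : ℂ :=
  ⟨Real.sqrt 3 / 2 * v.1, 3 / 2 * v.2 + if Even (v.1 + v.2) then 1 / 2 else 0⟩

/-- The coordinate in the direction `u = exp (- i π / 6)`, one of the directions of the edges. -/
noncomputable def lv (z : ℂ) : ℝ := (Real.sqrt 3 * z.re - z.im) / 2

/-- The open half-disc with centre `a` and radius `r` on the side `ε u` of `a` (`ε = 1` or
`ε = -1`). -/
def HD (a : ℂ) (ε r : ℝ) : Set ℂ := {z | ‖z - a‖ < r ∧ 0 < ε * (lv z - lv a)}

/-- The vertices in the half-disc (with its diameter) with centre `δ p` and radius `r`, on the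
side `ε u` of `p`, for the lattice with mesh `δ`. -/
def Hd (δ ε r : ℝ) (p : ℤ × ℤ) : Set (ℤ × ℤ) :=
  {v | ‖(δ : ℂ) * emb v - δ * emb p‖ < r ∧ 0 ≤ ε * (lv (emb v) - lv (emb p))}

/-- `p` is the lattice point with an edge in the direction `- ε u`: a boundary vertex of a half-plane
on the side `ε u`. -/
def Bd (ε : ℝ) (p : ℤ × ℤ) : Prop :=
  (ε = 1 ∧ Odd (p.1 + p.2)) ∨ (ε = -1 ∧ Even (p.1 + p.2))

/-- The three edge directions: the edges from an even vertex (`v.1 + v.2` even) to an odd vertex
are the vectors `e₀`, `e₁`, `e₂`. -/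
noncomputable def e₀ : ℂ := ⟨Real.sqrt 3 / 2, -1 / 2⟩

/-- The second edge direction. -/
noncomputable def e₁ : ℂ := ⟨0, 1⟩

/-- The third edge direction. -/
noncomputable def e₂ : ℂ := ⟨-(Real.sqrt 3 / 2), -1 / 2⟩

/-- The height of `v` in the direction `e`, that is, the scalar product of `emb v` and `e`. -/
noncomputable def height (e : ℂ) (v : ℤ × ℤ) : ℝ := ((starRingEnd ℂ) e * emb v).re

/-- The coordinate of `v` in the direction orthogonal to `e`. -/
noncomputable def lat (e : ℂ) (v : ℤ × ℤ) : ℝ := ((starRingEnd ℂ) e * emb v).im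

/-- `m` is an upward crossing of a slab of height `H` orthogonal to `e`: it starts at an odd vertex `x`
in the bottom line of the slab, ends at an even vertex `y` in the top line of the slab and stays in
the slab. (A path which stays between the heights of its two ends becomes such a crossing after
removal of at most its first and its last edge.) -/
def Cross (e : ℂ) (m : List (ℤ × ℤ)) (H : ℝ) : Prop :=
  ∃ x y : ℤ × ℤ, m.head? = some x ∧ m.getLast? = some y ∧ Odd (x.1 + x.2) ∧ Even (y.1 + y.2) ∧
    (∀ v ∈ m, height e x ≤ height e v ∧ height e v ≤ height e y) ∧ height e y - height e x = H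

/-- The width (extent orthogonal to `e`) of `m` is at most `c`. -/
def WidthLE (e : ℂ) (m : List (ℤ × ℤ)) (c : ℝ) : Prop := ∀ p ∈ m, ∀ q ∈ m, lat e p - lat e q ≤ c

/-- The path `l` has a piece `m` which crosses, upwards or downwards, a slab of height `H ≥ 1`
orthogonal to `e` and whose width is at most `H / w` or larger than `w H`. -/
def UnevenIn (e : ℂ) (w : ℝ) (l : List (ℤ × ℤ)) : Prop :=
  ∃ (l₁ m l₂ : List (ℤ × ℤ)) (H : ℝ), l = l₁ ++ m ++ l₂ ∧ (Cross e m H ∨ Cross e m.reverse H) ∧
    1 ≤ H ∧ (WidthLE e m (H / w) ∨ ¬ WidthLE e m (w * H))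

/-- The path has an uneven crossing in one of the three edge directions. -/
def Uneven (w : ℝ) (l : List (ℤ × ℤ)) : Prop :=
  ∃ e : ℂ, (e = e₀ ∨ e = e₁ ∨ e = e₂) ∧ UnevenIn e w l

/-- **Theorem.** Let `Ω` be a connected open set of the plane, `a ≠ b` points such that `Ω` contains
a half-disc with centre `a` on the side `ε u` and a half-disc with centre `b` on the side `ε' u`
(for instance boundary points at which the boundary is a segment orthogonal to `u`, or interior
points of `Ω`), and `M` a number. There are a compact set `K` contained in `Ω` and `C ≥ 1` such that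
for every mesh `δ ≤ 1 / C`, all boundary vertices `p` and `q` with `δ p` and `δ q` at distance at most
`1 / C` of `a` and `b`, and every set `D` of vertices in the disc of radius `M / δ` which contains the
vertices of `K` and the half-discs of the vertices `p` and `q`, and all `s ≥ 1`: the critical path from
`p` to `q` in `D` has an uneven crossing with the factor `C s log(1/δ)^2` with probability at most
`exp (-s log(1/δ)^2)`. -/
theorem result (Ω : Set ℂ) (hΩ : IsOpen Ω) (hc : IsConnected Ω) (M : ℝ) (a b : ℂ) (hab : a ≠ b)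
    (ε ε' : ℝ) (hε : ε = 1 ∨ ε = -1) (hε' : ε' = 1 ∨ ε' = -1) (r : ℝ) (hr : 0 < r)
    (ha : HD a ε r ⊆ Ω) (hb : HD b ε' r ⊆ Ω) :
    ∃ K : Set ℂ, K ⊆ Ω ∧ IsCompact K ∧ ∃ C : ℕ, 1 ≤ C ∧ ∀ δ : ℝ, 0 < δ → C * δ ≤ 1 →
      ∀ (D : Set (ℤ × ℤ)) (p q : ℤ × ℤ), (∀ v ∈ D, ‖(δ : ℂ) * emb v‖ ≤ M) → Bd ε p → Bd ε' q →
      C * ‖(δ : ℂ) * emb p - a‖ ≤ 1 → C * ‖(δ : ℂ) * emb q - b‖ ≤ 1 →
      (∀ v : ℤ × ℤ, (δ : ℂ) * emb v ∈ K → v ∈ D) → Hd δ ε r p ⊆ D → Hd δ ε' r q ⊆ D →
      ∀ s : ℕ, 1 ≤ s → Prob D p q (Uneven (C * s * Real.log (1 / δ) ^ 2)) ≤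
        ENNReal.ofReal (Real.exp (-(s * Real.log (1 / δ) ^ 2))) :=
  Pool.Agent.V11324.NS.dom Ω hΩ hc M a b hab ε ε' hε hε' r hr ha hb

end Pool.Agent.Results.MP_4960b8_pr.EvenCrossings
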